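import Pool.Agent.H40.Post1

set_option autoImplicit false

namespace Pool.Agent.Results.MP_0f3b43_lc.NoUniformPair

open Pool.Agent.H40.Gen Pool.Agent.H40.Bsig

theorem result (φ ψ : Pool.Agent.H40.Gen.Fm) (hφ : Pool.Agent.H40.Gen.Lv 1 true φ)
    (hψ : Pool.Agent.H40.Gen.Lv 1 true ψ) :
    ∃ M : Pool.Agent.H40.Gen.Mod, PAm M ∧ Pool.Agent.H40.Gen.Ind M 0 ∧ Pool.Agent.H40.Gen.Bnd M 1 ∧
      (Red M {x | Pool.Agent.H40.Gen.Sat M φ (cons x fun _ => M.zero)}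
          {x | Pool.Agent.H40.Gen.Sat M ψ (cons x fun _ => M.zero)} ∨
        Red M {x | Pool.Agent.H40.Gen.Sat M ψ (cons x fun _ => M.zero)}
          {x | Pool.Agent.H40.Gen.Sat M φ (cons x fun _ => M.zero)}) :=
  (Cs.dichotomy φ hφ).imp fun _ h => ⟨h.1, h.2.1, h.2.2.1,
    h.2.2.2.imp (fun e => e _) fun e => e _ ⟨ψ, _, hψ, fun _ => Iff.rfl⟩⟩

end Pool.Agent.Results.MP_0f3b43_lc.NoUniformPair
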